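import Pool.Agent.J4H58.XC.Stm

set_option autoImplicit false

namespace Pool.Agent.J4H67.XC

open Finset Pool.Agent.J4H58.XC

/-- potential of a permutation -/
def pot {n : ℕ} (σ : Equiv.Perm (Fin n)) : ℤ := ∑ k : Fin n, (k : ℤ) * (σ k : ℤ)

theorem pot_le {n : ℕ} (σ : Equiv.Perm (Fin n)) : pot σ ≤ (n : ℤ) * (n * n) := by
  unfold pot
  calc ∑ k : Fin n, (k : ℤ) * (σ k : ℤ) ≤ ∑ k : Fin n, ((n : ℤ) * n) := by
        refine Finset.sum_le_sum fun k _ => ?_
        have h1 : (k : ℤ) ≤ n := by exact_mod_cast k.2.le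
        have h2 : ((σ k : Fin n) : ℤ) ≤ n := by exact_mod_cast (σ k).2.le
        exact mul_le_mul h1 h2 (by positivity) (by positivity)
    _ = (n : ℤ) * (n * n) := by simp

theorem pot_nonneg {n : ℕ} (σ : Equiv.Perm (Fin n)) : 0 ≤ pot σ :=
  Finset.sum_nonneg fun k _ => by positivity

theorem pot_swap {n : ℕ} (σ : Equiv.Perm (Fin n)) {i j : Fin n} (hij : (i : ℕ) + 1 = j)
    (h : σ j < σ i) : pot σ + 1 ≤ pot (σ * Equiv.swap i j) := by
  have hne : i ≠ j := by
    rintro rfl
    omega
  have e : pot (σ * Equiv.swap i j) - pot σ =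
      ∑ k ∈ ({i, j} : Finset (Fin n)), ((k : ℤ) * (σ (Equiv.swap i j k) : ℤ) - (k : ℤ) * (σ k : ℤ)) := by
    unfold pot
    rw [← Finset.sum_sub_distrib]
    symm
    refine Finset.sum_subset (Finset.subset_univ _) fun k _ hk => ?_
    have h1 : k ≠ i := fun h => hk (by simp [h])
    have h2 : k ≠ j := fun h => hk (by simp [h])
    rw [Equiv.swap_apply_of_ne_of_ne h1 h2, sub_self]
  rw [Finset.sum_pair hne, Equiv.swap_apply_left, Equiv.swap_apply_right] at e
  have h3 : ((σ j : Fin n) : ℤ) + 1 ≤ ((σ i : Fin n) : ℤ) := by exact_mod_cast h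
  have h4 : (j : ℤ) = (i : ℤ) + 1 := by exact_mod_cast hij.symm
  rw [h4] at e
  nlinarith

theorem exists_descent {n : ℕ} (σ : Equiv.Perm (Fin n)) (h : σ ≠ 1) :
    ∃ i j : Fin n, (i : ℕ) + 1 = j ∧ σ j < σ i := by
  by_contra hcon
  push Not at hcon
  apply h
  have hmono : StrictMono σ := by
    have key : ∀ d : ℕ, ∀ i j : Fin n, (i : ℕ) + (d + 1) = j → σ i < σ j := by
      intro d
      induction d with
      | zero =>
        intro i j hij
        have h1 := hcon i j (by omega)
        refine lt_of_le_of_ne h1 fun h2 => ?_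
        have := σ.injective h2
        subst this
        omega
      | succ d ih =>
        intro i j hij
        have h1 := ih i ⟨i + (d + 1), by have := j.2; omega⟩ rfl
        have h2 := hcon ⟨i + (d + 1), by have := j.2; omega⟩ j (by simp; omega)
        exact lt_of_lt_of_le h1 h2
    intro i j hij
    exact key ((j : ℕ) - i - 1) i j (by have : (i : ℕ) < j := hij; omega)
  have h1 : σ.toFun = id := by
    have e : (⟨σ, fun {a b} => hmono.le_iff_le⟩ : Fin n ≃o Fin n) = OrderIso.refl _ :=
      Subsingleton.elim _ _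
    funext x
    exact congrArg (fun f : Fin n ≃o Fin n => f x) e
  ext x
  exact congrArg Fin.val (congrFun h1 x)

theorem swap_mem {n : ℕ} {R : Fin n → Fin n → Prop} {q q' : Equiv.Perm (Fin n)} (hq : q ∈ Lin R)
    (hq' : q' ∈ Lin R) {i j : Fin n} (hij : (i : ℕ) + 1 = j)
    (h : (q'⁻¹ * q) j < (q'⁻¹ * q) i) : q * Equiv.swap i j ∈ Lin R := by
  have hne : i ≠ j := by
    rintro rfl
    omega
  have hR : ¬ R (q i) (q j) := by
    intro hr
    have h1 := hq' (q'⁻¹ (q i)) (q'⁻¹ (q j)) (by simpa using hr)
    exact absurd h1 (not_lt.2 h.le)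
  intro k l hkl
  rw [Equiv.Perm.mul_apply, Equiv.Perm.mul_apply] at hkl
  have h1 := hq _ _ hkl
  by_contra hcon
  rcases eq_or_ne k i with rfl | hki
  · rw [Equiv.swap_apply_left] at h1 hkl
    rcases eq_or_ne l k with rfl | hlk
    · rw [Equiv.swap_apply_left] at h1
      exact lt_irrefl _ h1
    · rcases eq_or_ne l j with rfl | hlj
      · exact hcon (by rw [Fin.lt_def]; omega)
      · rw [Equiv.swap_apply_of_ne_of_ne hlk hlj] at h1
        rw [Fin.lt_def] at h1 hcon
        omega
  · rcases eq_or_ne k j with rfl | hkj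
    · rw [Equiv.swap_apply_right] at h1 hkl
      rcases eq_or_ne l i with rfl | hli
      · rw [Equiv.swap_apply_left] at hkl
        exact hR hkl
      · rcases eq_or_ne l k with rfl | hlk
        · rw [Equiv.swap_apply_right] at h1
          exact lt_irrefl _ h1
        · rw [Equiv.swap_apply_of_ne_of_ne hli hlk] at h1
          rw [Fin.lt_def] at h1 hcon
          have : (l : ℕ) ≠ k := fun h => hlk (Fin.ext h)
          omega
    · rw [Equiv.swap_apply_of_ne_of_ne hki hkj] at h1 hkl
      rcases eq_or_ne l i with rfl | hli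
      · rw [Equiv.swap_apply_left] at h1
        rw [Fin.lt_def] at h1 hcon
        have : (k : ℕ) ≠ l := fun h => hki (Fin.ext h)
        omega
      · rcases eq_or_ne l j with rfl | hlj
        · rw [Equiv.swap_apply_right] at h1
          rw [Fin.lt_def] at h1 hcon
          omega
        · rw [Equiv.swap_apply_of_ne_of_ne hli hlj] at h1
          exact hcon h1

theorem t_X4 : S_X4 := by
  intro n
  refine ⟨(n : ℝ) * (n * n) + 1, fun R h D hD hh q hq q' hq' => ?_⟩
  have key : ∀ N : ℕ, ∀ q ∈ Lin R, (n : ℤ) * (n * n) ≤ pot (q'⁻¹ * q) + N →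
      |h q - h q'| ≤ (N : ℝ) * D := by
    intro N
    induction N with
    | zero =>
      intro q hq hN
      have h1 : q'⁻¹ * q = 1 := by
        by_contra hcon
        obtain ⟨i, j, hij, h2⟩ := exists_descent _ hcon
        have h3 := pot_swap _ hij h2
        have h4 := pot_le (q'⁻¹ * q * Equiv.swap i j)
        push_cast at hN
        omega
      have h2 : q = q' := by
        have := congrArg (fun σ => q' * σ) h1
        simpa using this
      rw [h2]
      simp
    | succ N ih =>
      intro q hq hN
      by_cases h1 : q'⁻¹ * q = 1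
      · have h2 : q = q' := by
          have := congrArg (fun σ => q' * σ) h1
          simpa using this
        rw [h2, sub_self, abs_zero]
        positivity
      · obtain ⟨i, j, hij, h2⟩ := exists_descent _ h1
        have h3 := pot_swap _ hij h2
        have h4 := swap_mem hq hq' hij h2
        have h5 := ih (q * Equiv.swap i j) h4 (by
          rw [show q'⁻¹ * (q * Equiv.swap i j) = q'⁻¹ * q * Equiv.swap i j from
            (mul_assoc _ _ _).symm]
          push_cast at hN ⊢
          omega)
        have h6 := hh q hq i j hij h4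
        have e : h q - h q' = (h (q * Equiv.swap i j) - h q') - (h (q * Equiv.swap i j) - h q) := by
          ring
        rw [e]
        refine (abs_sub _ _).trans ?_
        push_cast
        linarith
  have h1 := key (n * (n * n)) q hq (by
    have := pot_nonneg (q'⁻¹ * q)
    push_cast
    omega)
  refine h1.trans ?_
  push_cast
  nlinarith

end Pool.Agent.J4H67.XC
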