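import Pool.Agent.J4H58.XC.Stm2
import Pool.Agent.J4H67.XC.X4

set_option autoImplicit false

namespace Pool.Agent.J4H67.XC

open Finset Pool.Agent.J4H58.XC

/-- the energy of the exchanges of neighbours with the same position -/
noncomputable def eE {n : ℕ} (y : Fin n → ℕ) (h : Equiv.Perm (Fin n) → ℝ) : ℝ := by
  classical
  exact ∑ q : Equiv.Perm (Fin n), ∑ i : Fin n, ∑ j : Fin n,
      (if (i : ℕ) + 1 = j ∧ y i = y j then (h (q * Equiv.swap i j) - h q) ^ 2 else 0)

theorem eE_nonneg {n : ℕ} (y : Fin n → ℕ) (h : Equiv.Perm (Fin n) → ℝ) : 0 ≤ eE y h := by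
  unfold eE
  refine Finset.sum_nonneg fun q _ => Finset.sum_nonneg fun i _ => Finset.sum_nonneg fun j _ => ?_
  split_ifs
  · positivity
  · exact le_rfl

theorem one_swap {n : ℕ} (y : Fin n → ℕ) (h : Equiv.Perm (Fin n) → ℝ) {i j : Fin n}
    (hij : (i : ℕ) + 1 = j) (hy : y i = y j) :
    ∑ q : Equiv.Perm (Fin n), (h (q * Equiv.swap i j) - h q) ^ 2 ≤ eE y h := by
  unfold eE
  refine Finset.sum_le_sum fun q _ => ?_
  have hnn : ∀ i' j' : Fin n, (0 : ℝ) ≤ (if (i' : ℕ) + 1 = j' ∧ y i' = y j' then
      (h (q * Equiv.swap i' j') - h q) ^ 2 else 0) := by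
    intro i' j'
    split_ifs
    · positivity
    · exact le_rfl
  calc (h (q * Equiv.swap i j) - h q) ^ 2 = (if (i : ℕ) + 1 = j ∧ y i = y j then
      (h (q * Equiv.swap i j) - h q) ^ 2 else 0) := by rw [if_pos ⟨hij, hy⟩]
    _ ≤ ∑ j' : Fin n, (if (i : ℕ) + 1 = j' ∧ y i = y j' then
      (h (q * Equiv.swap i j') - h q) ^ 2 else 0) :=
        Finset.single_le_sum (f := fun j' : Fin n => (if (i : ℕ) + 1 = j' ∧ y i = y j' then
          (h (q * Equiv.swap i j') - h q) ^ 2 else 0)) (fun j' _ => hnn i j') (Finset.mem_univ j)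
    _ ≤ ∑ i' : Fin n, ∑ j' : Fin n, (if (i' : ℕ) + 1 = j' ∧ y i' = y j' then
      (h (q * Equiv.swap i' j') - h q) ^ 2 else 0) :=
        Finset.single_le_sum (f := fun i' : Fin n => ∑ j' : Fin n,
          (if (i' : ℕ) + 1 = j' ∧ y i' = y j' then (h (q * Equiv.swap i' j') - h q) ^ 2 else 0))
          (fun i' _ => Finset.sum_nonneg fun j' _ => hnn i' j') (Finset.mem_univ i)

theorem x7a_key {n : ℕ} {y : Fin n → ℕ} (hy : Monotone y) (h : Equiv.Perm (Fin n) → ℝ) :
    ∀ N : ℕ, ∀ g : Equiv.Perm (Fin n), y ∘ g = y → (n : ℤ) * (n * n) ≤ pot g + N →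
      ∑ q : Equiv.Perm (Fin n), (h (q * g) - h q) ^ 2 ≤ 4 ^ N * eE y h := by
  intro N
  have h0 := eE_nonneg y h
  induction N with
  | zero =>
    intro g hg hN
    have h1 : g = 1 := by
      by_contra hcon
      obtain ⟨i, j, hij, h2⟩ := exists_descent _ hcon
      have h3 := pot_swap _ hij h2
      have h4 := pot_le (g * Equiv.swap i j)
      push_cast at hN
      omega
    subst h1
    simpa using h0
  | succ N ih =>
    intro g hg hN
    by_cases h1 : g = 1
    · subst h1
      have : (0 : ℝ) ≤ 4 ^ (N + 1) * eE y h := by positivity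
      simpa using this
    · obtain ⟨i, j, hij, h2⟩ := exists_descent _ h1
      have h3 := pot_swap _ hij h2
      have hyi : y (g i) = y i := congrFun hg i
      have hyj : y (g j) = y j := congrFun hg j
      have hlt : i < j := by rw [Fin.lt_def]; omega
      have hyij : y i = y j := by
        have h4 := hy h2.le
        have h5 := hy hlt.le
        omega
      have hg' : y ∘ (g * Equiv.swap i j) = y := by
        funext k
        show y (g (Equiv.swap i j k)) = y k
        have h4 : y (g (Equiv.swap i j k)) = y (Equiv.swap i j k) := congrFun hg _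
        rw [h4]
        rcases eq_or_ne k i with rfl | hki
        · rw [Equiv.swap_apply_left, hyij]
        · rcases eq_or_ne k j with rfl | hkj
          · rw [Equiv.swap_apply_right, hyij]
          · rw [Equiv.swap_apply_of_ne_of_ne hki hkj]
      have h5 := ih (g * Equiv.swap i j) hg' (by push_cast at hN ⊢; omega)
      have h6 := one_swap y h hij hyij
      have h7 : ∑ q : Equiv.Perm (Fin n), (h (q * g) - h (q * (g * Equiv.swap i j))) ^ 2 ≤ eE y h := by
        have e : ∑ q : Equiv.Perm (Fin n), (h (q * g) - h (q * (g * Equiv.swap i j))) ^ 2 =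
            ∑ q : Equiv.Perm (Fin n), (h (q * Equiv.swap i j) - h q) ^ 2 := by
          refine Fintype.sum_equiv (Equiv.mulRight g) _ _ fun q => ?_
          show (h (q * g) - h (q * (g * Equiv.swap i j))) ^ 2 =
            (h (q * g * Equiv.swap i j) - h (q * g)) ^ 2
          rw [mul_assoc]
          ring
        rw [e]
        exact h6
      calc ∑ q : Equiv.Perm (Fin n), (h (q * g) - h q) ^ 2
          ≤ ∑ q : Equiv.Perm (Fin n), (2 * (h (q * g) - h (q * (g * Equiv.swap i j))) ^ 2 +
              2 * (h (q * (g * Equiv.swap i j)) - h q) ^ 2) := by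
            refine Finset.sum_le_sum fun q _ => ?_
            nlinarith [sq_nonneg ((h (q * g) - h (q * (g * Equiv.swap i j))) -
              (h (q * (g * Equiv.swap i j)) - h q))]
        _ = 2 * ∑ q : Equiv.Perm (Fin n), (h (q * g) - h (q * (g * Equiv.swap i j))) ^ 2 +
              2 * ∑ q : Equiv.Perm (Fin n), (h (q * (g * Equiv.swap i j)) - h q) ^ 2 := by
            rw [Finset.sum_add_distrib, Finset.mul_sum, Finset.mul_sum]
        _ ≤ 2 * eE y h + 2 * (4 ^ N * eE y h) := by linarith
        _ ≤ 4 ^ (N + 1) * eE y h := by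
            have h8 : (1 : ℝ) ≤ 4 ^ N := one_le_pow₀ (by norm_num)
            rw [pow_succ]
            nlinarith

theorem t_X7a : S_X7a := by
  intro n
  refine ⟨4 ^ (n * (n * n)), by positivity, fun y hy g hg h => ?_⟩
  have h1 := x7a_key hy h (n * (n * n)) g hg (by
    have := pot_nonneg g
    push_cast
    omega)
  unfold eE at h1
  convert h1

end Pool.Agent.J4H67.XC
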