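import Pool.Agent.J4H58.XC.Stm2
import Pool.Agent.J4H67.XC.X4

set_option autoImplicit false

namespace Pool.Agent.J4H67.XC

open Finset Pool.Agent.J4H58.XC

section crude

variable {n N : ℕ} {s : (Fin n → ℕ) → Fin n → ℝ}

/-- the energy of the full system -/
noncomputable def EE (N : ℕ) (s : (Fin n → ℕ) → Fin n → ℝ)
    (F : (Fin n → ℕ) × Equiv.Perm (Fin n) → ℝ) : ℝ :=
  en (sts (mb n N) (fun _ _ => False)) (cd (ga s) (gl 1)) F

/-- `t` and `t'` are linked -/
def Good (N : ℕ) (s : (Fin n → ℕ) → Fin n → ℝ) (t t' : (Fin n → ℕ) × Equiv.Perm (Fin n)) : Prop :=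
  ∃ C : ℝ, 0 ≤ C ∧ ∀ F : (Fin n → ℕ) × Equiv.Perm (Fin n) → ℝ, (F t - F t') ^ 2 ≤ C * EE N s F

theorem ga_nonneg (hs : ∀ x i, 0 < s x i) (y z : Fin n → ℕ) : 0 ≤ ga s y z := by
  unfold ga
  refine Finset.sum_nonneg fun k _ => add_nonneg ?_ ?_
  · split_ifs
    · exact (hs _ _).le
    · exact le_rfl
  · split_ifs
    · exact (hs _ _).le
    · exact le_rfl

theorem gl_nonneg (k : ℕ) (y : Fin n → ℕ) : 0 ≤ gl 1 k y := by
  unfold gl
  split_ifs
  · exact zero_le_one
  · exact le_rfl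

theorem cd_parts (hs : ∀ x i, 0 < s x i) (t t' : (Fin n → ℕ) × Equiv.Perm (Fin n)) :
    0 ≤ cd (ga s) (gl 1) t t' ∧
    (t.2 = t'.2 → ga s t.1 t'.1 ≤ cd (ga s) (gl 1) t t') ∧
    (∀ i j : Fin n, (i : ℕ) + 1 = j → t.1 = t'.1 → t'.2 = t.2 * Equiv.swap i j →
      gl 1 i t.1 ≤ cd (ga s) (gl 1) t t') := by
  classical
  have hterm : ∀ i j : Fin n, (0 : ℝ) ≤ (if (i : ℕ) + 1 = j ∧ t'.2 = t.2 * Equiv.swap i j then
      gl 1 i t.1 else 0) := by
    intro i j
    split_ifs
    · exact gl_nonneg _ _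
    · exact le_rfl
  have h2 : (0 : ℝ) ≤ (if t.1 = t'.1 then ∑ i : Fin n, ∑ j : Fin n,
      (if (i : ℕ) + 1 = j ∧ t'.2 = t.2 * Equiv.swap i j then gl 1 i t.1 else 0) else 0) := by
    split_ifs
    · exact Finset.sum_nonneg fun i _ => Finset.sum_nonneg fun j _ => hterm i j
    · exact le_rfl
  have h1 : (0 : ℝ) ≤ (if t.2 = t'.2 then ga s t.1 t'.1 else 0) := by
    split_ifs
    · exact ga_nonneg hs _ _
    · exact le_rfl
  have hcd : cd (ga s) (gl 1) t t' = (if t.2 = t'.2 then ga s t.1 t'.1 else 0) +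
      (if t.1 = t'.1 then ∑ i : Fin n, ∑ j : Fin n,
      (if (i : ℕ) + 1 = j ∧ t'.2 = t.2 * Equiv.swap i j then gl 1 i t.1 else 0) else 0) := by
    unfold cd
    congr!
  rw [hcd]
  refine ⟨add_nonneg h1 h2, fun h => ?_, fun i j hij h h' => ?_⟩
  · rw [if_pos h]
    linarith
  · have h3 : gl 1 i t.1 ≤ ∑ i : Fin n, ∑ j : Fin n,
        (if (i : ℕ) + 1 = j ∧ t'.2 = t.2 * Equiv.swap i j then gl 1 i t.1 else 0) := by
      calc gl 1 i t.1 = (if (i : ℕ) + 1 = j ∧ t'.2 = t.2 * Equiv.swap i j then gl 1 i t.1 else 0) := by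
            rw [if_pos ⟨hij, h'⟩]
        _ ≤ ∑ j' : Fin n, (if (i : ℕ) + 1 = j' ∧ t'.2 = t.2 * Equiv.swap i j' then gl 1 i t.1 else 0) :=
            Finset.single_le_sum (f := fun j' : Fin n =>
              (if (i : ℕ) + 1 = j' ∧ t'.2 = t.2 * Equiv.swap i j' then gl 1 i t.1 else 0))
              (fun j' _ => hterm i j') (Finset.mem_univ j)
        _ ≤ _ := Finset.single_le_sum (f := fun i' : Fin n => ∑ j' : Fin n,
              (if (i' : ℕ) + 1 = j' ∧ t'.2 = t.2 * Equiv.swap i' j' then gl 1 i' t.1 else 0))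
              (fun i' _ => Finset.sum_nonneg fun j' _ => hterm i' j') (Finset.mem_univ i)
    rw [if_pos h]
    linarith

theorem mem_sts {t : (Fin n → ℕ) × Equiv.Perm (Fin n)} (h : t.1 ∈ mb n N) :
    t ∈ sts (mb n N) (fun _ _ => False) := by
  classical
  unfold sts
  rw [Finset.mem_product]
  refine ⟨h, ?_⟩
  simp only [Finset.mem_filter, Finset.mem_univ, true_and]
  exact fun i j h => h.elim

theorem EE_nonneg (hs : ∀ x i, 0 < s x i) (F : (Fin n → ℕ) × Equiv.Perm (Fin n) → ℝ) :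
    0 ≤ EE N s F := by
  unfold EE en
  have : ∀ t t' : (Fin n → ℕ) × Equiv.Perm (Fin n), 0 ≤ cd (ga s) (gl 1) t t' * (F t' - F t) ^ 2 :=
    fun t t' => mul_nonneg (cd_parts hs t t').1 (sq_nonneg _)
  have h2 : 0 ≤ ∑ t ∈ sts (mb n N) (fun _ _ => False), ∑ t' ∈ sts (mb n N) (fun _ _ => False),
      cd (ga s) (gl 1) t t' * (F t' - F t) ^ 2 :=
    Finset.sum_nonneg fun t _ => Finset.sum_nonneg fun t' _ => this t t'
  linarith

theorem good_edge (hs : ∀ x i, 0 < s x i) {t t' : (Fin n → ℕ) × Equiv.Perm (Fin n)}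
    (ht : t.1 ∈ mb n N) (ht' : t'.1 ∈ mb n N) (hc : 0 < cd (ga s) (gl 1) t t') : Good N s t t' := by
  refine ⟨2 / cd (ga s) (gl 1) t t', by positivity, fun F => ?_⟩
  have hnn : ∀ t t' : (Fin n → ℕ) × Equiv.Perm (Fin n), 0 ≤ cd (ga s) (gl 1) t t' * (F t' - F t) ^ 2 :=
    fun t t' => mul_nonneg (cd_parts hs t t').1 (sq_nonneg _)
  have h1 : cd (ga s) (gl 1) t t' * (F t' - F t) ^ 2 ≤
      ∑ t ∈ sts (mb n N) (fun _ _ => False), ∑ t' ∈ sts (mb n N) (fun _ _ => False),
        cd (ga s) (gl 1) t t' * (F t' - F t) ^ 2 :=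
    calc cd (ga s) (gl 1) t t' * (F t' - F t) ^ 2
        ≤ ∑ t' ∈ sts (mb n N) (fun _ _ => False), cd (ga s) (gl 1) t t' * (F t' - F t) ^ 2 :=
          Finset.single_le_sum (f := fun t' => cd (ga s) (gl 1) t t' * (F t' - F t) ^ 2)
            (fun t' _ => hnn t t') (mem_sts ht')
      _ ≤ _ := Finset.single_le_sum (f := fun t => ∑ t' ∈ sts (mb n N) (fun _ _ => False),
          cd (ga s) (gl 1) t t' * (F t' - F t) ^ 2)
            (fun t _ => Finset.sum_nonneg fun t' _ => hnn t t') (mem_sts ht)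
  have h2 : EE N s F = 1 / 2 * ∑ t ∈ sts (mb n N) (fun _ _ => False),
      ∑ t' ∈ sts (mb n N) (fun _ _ => False), cd (ga s) (gl 1) t t' * (F t' - F t) ^ 2 := rfl
  rw [div_mul_eq_mul_div, le_div_iff₀ hc]
  nlinarith

theorem Good.trans (hs : ∀ x i, 0 < s x i) {t u v : (Fin n → ℕ) × Equiv.Perm (Fin n)}
    (h1 : Good N s t u) (h2 : Good N s u v) : Good N s t v := by
  obtain ⟨C, hC, h1⟩ := h1
  obtain ⟨D, hD, h2⟩ := h2
  refine ⟨2 * C + 2 * D, by positivity, fun F => ?_⟩
  have h3 := h1 F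
  have h4 := h2 F
  nlinarith [sq_nonneg ((F t - F u) - (F u - F v))]

theorem Good.refl (hs : ∀ x i, 0 < s x i) (t : (Fin n → ℕ) × Equiv.Perm (Fin n)) :
    Good N s t t := ⟨0, le_rfl, fun F => by simp⟩

theorem mem_mb {y : Fin n → ℕ} : y ∈ mb n N ↔ (∀ i, y i ≤ N) ∧ Monotone y := by
  unfold mb Pool.Agent.J4H58.XC.box
  rw [Finset.mem_filter, Fintype.mem_piFinset]
  simp [Nat.lt_succ_iff]

theorem zero_mem : (0 : Fin n → ℕ) ∈ mb n N := mem_mb.2 ⟨fun i => Nat.zero_le _, fun _ _ _ => le_rfl⟩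

theorem down {y : Fin n → ℕ} (hy : y ∈ mb n N) (h0 : y ≠ 0) :
    ∃ z ∈ mb n N, ∃ k : Fin n, y = z + Pi.single k 1 := by
  classical
  obtain ⟨h1, h2⟩ := mem_mb.1 hy
  obtain ⟨i, hi⟩ : ∃ i, y i ≠ 0 := by
    by_contra hcon
    push Not at hcon
    exact h0 (funext hcon)
  obtain ⟨k, hk, hmin⟩ : ∃ k : Fin n, y k ≠ 0 ∧ ∀ j : Fin n, j < k → y j = 0 := by
    have hne : (Finset.univ.filter fun j : Fin n => y j ≠ 0).Nonempty := ⟨i, by simp [hi]⟩
    refine ⟨(Finset.univ.filter fun j : Fin n => y j ≠ 0).min' hne, ?_, fun j hj => ?_⟩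
    · exact (Finset.mem_filter.1 (Finset.min'_mem _ hne)).2
    · by_contra hcon
      have := Finset.min'_le (Finset.univ.filter fun j : Fin n => y j ≠ 0) j (by simp [hcon])
      exact absurd hj (not_lt.2 this)
  refine ⟨Function.update y k (y k - 1), ?_, k, ?_⟩
  · refine mem_mb.2 ⟨fun j => ?_, fun a b hab => ?_⟩
    · rcases eq_or_ne j k with rfl | hj
      · rw [Function.update_self]
        have := h1 j
        omega
      · rw [Function.update_of_ne hj]
        exact h1 j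
    · rcases eq_or_ne a k with rfl | ha
      · rw [Function.update_self]
        rcases eq_or_ne b a with rfl | hb
        · rw [Function.update_self]
        · rw [Function.update_of_ne hb]
          have := h2 hab
          omega
      · rw [Function.update_of_ne ha]
        rcases eq_or_ne b k with rfl | hb
        · rw [Function.update_self]
          have h3 : a < b := lt_of_le_of_ne hab ha
          rw [hmin a h3]
          exact Nat.zero_le _
        · rw [Function.update_of_ne hb]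
          exact h2 hab
  · funext j
    rcases eq_or_ne j k with rfl | hj
    · simp only [Pi.add_apply, Function.update_self, Pi.single_eq_same]
      omega
    · simp only [Pi.add_apply, Function.update_of_ne hj, Pi.single_eq_of_ne hj, add_zero]

theorem ga_pos (hs : ∀ x i, 0 < s x i) {y z : Fin n → ℕ} {k : Fin n}
    (h : y = z + Pi.single k 1) : 0 < ga s y z := by
  classical
  unfold ga
  refine lt_of_lt_of_le (hs z k) ?_
  have hnn : ∀ k' : Fin n, (0 : ℝ) ≤ ((if z = y + Pi.single k' 1 then s y k' else 0) +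
      (if y = z + Pi.single k' 1 then s z k' else 0)) := by
    intro k'
    refine add_nonneg ?_ ?_
    · split_ifs
      · exact (hs _ _).le
      · exact le_rfl
    · split_ifs
      · exact (hs _ _).le
      · exact le_rfl
  calc s z k ≤ ((if z = y + Pi.single k 1 then s y k else 0) +
      (if y = z + Pi.single k 1 then s z k else 0)) := by
        rw [if_pos h]
        have : (0 : ℝ) ≤ (if z = y + Pi.single k 1 then s y k else 0) := by
          split_ifs
          · exact (hs _ _).le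
          · exact le_rfl
        linarith
    _ ≤ ∑ k' : Fin n, ((if z = y + Pi.single k' 1 then s y k' else 0) +
      (if y = z + Pi.single k' 1 then s z k' else 0)) :=
        Finset.single_le_sum (f := fun k' : Fin n => ((if z = y + Pi.single k' 1 then s y k' else 0) +
          (if y = z + Pi.single k' 1 then s z k' else 0))) (fun k' _ => hnn k') (Finset.mem_univ k)
    _ ≤ _ := le_of_eq (by congr!)

theorem good_zero (hs : ∀ x i, 0 < s x i) (q : Equiv.Perm (Fin n)) : ∀ m : ℕ, ∀ y : Fin n → ℕ,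
    y ∈ mb n N → ∑ i, y i = m → Good N s (y, q) (0, q) := by
  intro m
  induction m with
  | zero =>
    intro y hy hm
    have h1 : y = 0 := by
      funext i
      have := Finset.sum_eq_zero_iff.1 hm i (Finset.mem_univ i)
      simpa using this
    rw [h1]
    exact Good.refl hs _
  | succ m ih =>
    intro y hy hm
    have h0 : y ≠ 0 := by
      rintro rfl
      simp at hm
    obtain ⟨z, hz, k, hk⟩ := down hy h0
    have h1 : Good N s (y, q) (z, q) := by
      refine good_edge hs hy hz ?_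
      exact lt_of_lt_of_le (ga_pos hs hk) ((cd_parts hs (y, q) (z, q)).2.1 rfl)
    refine h1.trans hs (ih z hz ?_)
    rw [hk] at hm
    simp only [Pi.add_apply, Finset.sum_add_distrib] at hm
    have : ∑ i : Fin n, (Pi.single k 1 : Fin n → ℕ) i = 1 := by simp
    omega

theorem good_one (hs : ∀ x i, 0 < s x i) : ∀ M : ℕ, ∀ q : Equiv.Perm (Fin n),
    (n : ℤ) * (n * n) ≤ pot q + M → Good N s (0, q) (0, 1) := by
  intro M
  induction M with
  | zero =>
    intro q hM
    have h1 : q = 1 := by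
      by_contra hcon
      obtain ⟨i, j, hij, h2⟩ := exists_descent _ hcon
      have h3 := pot_swap _ hij h2
      have h4 := pot_le (q * Equiv.swap i j)
      push_cast at hM
      omega
    rw [h1]
    exact Good.refl hs _
  | succ M ih =>
    intro q hM
    by_cases h1 : q = 1
    · rw [h1]
      exact Good.refl hs _
    · obtain ⟨i, j, hij, h2⟩ := exists_descent _ h1
      have h3 := pot_swap _ hij h2
      have h4 := ih (q * Equiv.swap i j) (by push_cast at hM ⊢; omega)
      refine Good.trans hs (good_edge hs zero_mem zero_mem ?_) h4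
      refine lt_of_lt_of_le ?_ ((cd_parts hs (0, q) (0, q * Equiv.swap i j)).2.2 i j hij rfl rfl)
      unfold gl
      rw [if_pos ⟨i, j, rfl, hij.symm, rfl⟩]
      exact one_pos

theorem good_base (hs : ∀ x i, 0 < s x i) {t : (Fin n → ℕ) × Equiv.Perm (Fin n)}
    (ht : t.1 ∈ mb n N) : Good N s t (0, 1) := by
  refine Good.trans hs (good_zero hs t.2 _ t.1 ht rfl) (good_one hs (n * (n * n)) t.2 ?_)
  have := pot_nonneg t.2
  push_cast
  omega

end crude

theorem t_X7b : S_X7b := by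
  classical
  intro n N s hs
  have hex : ∀ t : (Fin n → ℕ) × Equiv.Perm (Fin n), ∃ C : ℝ, 0 ≤ C ∧ (t.1 ∈ mb n N →
      ∀ F : (Fin n → ℕ) × Equiv.Perm (Fin n) → ℝ, (F t - F (0, 1)) ^ 2 ≤ C * EE N s F) := by
    intro t
    by_cases ht : t.1 ∈ mb n N
    · obtain ⟨C, hC, h⟩ := good_base (N := N) hs ht
      exact ⟨C, hC, fun _ => h⟩
    · exact ⟨0, le_rfl, fun h => absurd h ht⟩
  choose C hC0 hC using hex
  set S : ℝ := ∑ t ∈ sts (mb n N) (fun _ _ => False), C t with hS
  have hS0 : 0 ≤ S := Finset.sum_nonneg fun t _ => hC0 t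
  have hle : ∀ t : (Fin n → ℕ) × Equiv.Perm (Fin n), t.1 ∈ mb n N → C t ≤ S := fun t ht =>
    Finset.single_le_sum (f := C) (fun t _ => hC0 t) (mem_sts ht)
  refine ⟨4 * S, by positivity, fun F t t' ht ht' => ?_⟩
  have hE := EE_nonneg (N := N) hs F
  have h1 := hC t ht F
  have h2 := hC t' ht' F
  have h3 := mul_le_mul_of_nonneg_right (hle t ht) hE
  have h4 := mul_le_mul_of_nonneg_right (hle t' ht') hE
  show (F t - F t') ^ 2 ≤ 4 * S * EE N s F
  nlinarith [sq_nonneg ((F t - F (0, 1)) + (F t' - F (0, 1)))]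

end Pool.Agent.J4H67.XC
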